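import Pool.Agent.H31.SqK

open Pool.Agent.H31

theorem Pool.Agent.Results.MP_a29c66_gt.Main.result :
    ∃ (X Y : Type) (_ : TopologicalSpace X) (_ : TopologicalSpace Y),
      SequentialSpace X ∧ SequentialSpace Y ∧ T35Space (X × Y) ∧ Snf.KR (X × Y) inferInstance ∧
        ¬CompactlyCoherentSpace (X × Y) :=
  ⟨SqK.XS, SqK.YS, inferInstance, inferInstance, inferInstance, inferInstance, inferInstance,
    SqK.kr, SqK.notK⟩
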